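import Pool.Agent.Helper87.MD.Goals
import Pool.Agent.Helper54.Lang.DYAD

/-!
# MD-BLA: small divisors (MP_c307ca_nt, project MD of helper87)
-/

set_option autoImplicit false

open Finset Filter
open scoped Classical

namespace Pool.Agent.Helper54.MD

open Pool.Agent.Helper98.Lang Pool.Agent.Helper87.MD

lemma cnt_SS (hD : GDDM) {ξ c ε : ℝ} {s M d g R X : ℕ} {G : ℝ → ℝ} (hG0 : ∀ t, 0 ≤ G t)
    (hg : 1 ≤ g) (hX : 2 * M * R / g ≤ X)
    (hG1 : ∀ t : ℝ, nd t ≤ eb c ε d g R → 1 ≤ G t) :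
    (SS ξ c ε s M d g R : ℝ) ≤ ∑ n ∈ Icc 1 X, G ((n : ℝ) * (s * ξ)) * DD n := by
  unfold SS
  set P := ((Icc 1 M) ×ˢ (Icc 1 (2 * R))).filter (fun x : ℕ × ℕ => R ≤ g * x.2 ∧ g * x.2 < 2 * R ∧
    nd ((s : ℝ) * x.1 * x.2 * ξ) ≤ eb c ε d g R) with hP
  have hmem : ∀ x ∈ P, (1 ≤ x.1 ∧ x.1 ≤ M) ∧ (1 ≤ x.2) ∧ R ≤ g * x.2 ∧ g * x.2 < 2 * R ∧
      nd ((s : ℝ) * x.1 * x.2 * ξ) ≤ eb c ε d g R := by
    intro x hx
    rw [hP, mem_filter, mem_product, mem_Icc, mem_Icc] at hx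
    exact ⟨hx.1.1, hx.1.2.1, hx.2⟩
  have h1 : (P.card : ℝ) ≤ ∑ x ∈ P, G (((x.1 * x.2 : ℕ) : ℝ) * (s * ξ)) := by
    have : (P.card : ℝ) = ∑ x ∈ P, (1 : ℝ) := by simp
    rw [this]
    refine Finset.sum_le_sum fun x hx => hG1 _ ?_
    have h := (hmem x hx).2.2.2.2
    have e : ((x.1 * x.2 : ℕ) : ℝ) * (s * ξ) = (s : ℝ) * x.1 * x.2 * ξ := by push_cast; ring
    rw [e]; exact h
  have hmaps : ∀ x ∈ P, x.1 * x.2 ∈ Icc 1 X := by
    intro x hx
    obtain ⟨⟨a1, a2⟩, a3, a4, a5, -⟩ := hmem x hx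
    rw [mem_Icc]
    refine ⟨Nat.mul_pos a1 a3, le_trans ?_ hX⟩
    rw [Nat.le_div_iff_mul_le hg]
    calc x.1 * x.2 * g = x.1 * (g * x.2) := by ring
      _ ≤ M * (2 * R) := Nat.mul_le_mul a2 a5.le
      _ = 2 * M * R := by ring
  refine h1.trans ?_
  rw [← Finset.sum_fiberwise_of_maps_to hmaps]
  refine Finset.sum_le_sum fun n hn => ?_
  rw [mem_Icc] at hn
  have h3 : ∑ x ∈ P.filter (fun x => x.1 * x.2 = n), G (((x.1 * x.2 : ℕ) : ℝ) * (s * ξ))
      = ((P.filter (fun x => x.1 * x.2 = n)).card : ℝ) * G ((n : ℝ) * (s * ξ)) := by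
    have h' : ∀ x ∈ P.filter (fun x => x.1 * x.2 = n),
        G (((x.1 * x.2 : ℕ) : ℝ) * (s * ξ)) = G ((n : ℝ) * (s * ξ)) := by
      intro x hx
      rw [mem_filter] at hx
      rw [hx.2]
    rw [Finset.sum_congr rfl h', Finset.sum_const, nsmul_eq_mul]
  rw [h3, mul_comm]
  refine mul_le_mul_of_nonneg_left ?_ (hG0 _)
  have hinj : Set.InjOn Prod.snd ((P.filter (fun x => x.1 * x.2 = n) : Finset (ℕ × ℕ)) : Set (ℕ × ℕ)) := by
    intro x hx y hy hxy
    rw [mem_coe, mem_filter] at hx hy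
    have hx2 := (hmem x hx.1).2.1
    have h5 : x.1 * x.2 = y.1 * x.2 := by rw [hx.2]; rw [hxy]; exact hy.2.symm
    have h6 : x.1 = y.1 := Nat.eq_of_mul_eq_mul_right hx2 h5
    exact Prod.ext h6 hxy
  have h4 := hD.1 n ((P.filter (fun x => x.1 * x.2 = n)).image Prod.snd) (by omega) ?_ ?_
  · rw [Finset.card_image_of_injOn hinj] at h4
    exact_mod_cast h4
  · intro q hq
    rw [mem_image] at hq
    obtain ⟨x, hx, rfl⟩ := hq
    rw [mem_filter] at hx
    rw [Nat.mem_divisors]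
    exact ⟨⟨x.1, by rw [← hx.2]; ring⟩, by omega⟩
  · intro u hu v hv
    rw [mem_image] at hu hv
    obtain ⟨x, hx, rfl⟩ := hu
    obtain ⟨y, hy, rfl⟩ := hv
    rw [mem_filter] at hx hy
    have hx2 := (hmem x hx.1).2.2.2.1
    have hy2 := (hmem y hy.1).2.2.1
    have h5 : g * x.2 < g * (2 * y.2) := by
      calc g * x.2 < 2 * R := hx2
        _ ≤ 2 * (g * y.2) := Nat.mul_le_mul_left _ hy2
        _ = g * (2 * y.2) := by ring
    have h5' : x.2 ≤ 2 * y.2 := (Nat.lt_of_mul_lt_mul_left h5).le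
    have h6 : (x.2 : ℝ) ≤ 2 * y.2 := by exact_mod_cast h5'
    have h7 : (2 : ℝ) ≤ Real.exp 1 := by
      have := Real.add_one_le_exp (1 : ℝ); linarith
    have h8 : (0 : ℝ) ≤ y.2 := by positivity
    nlinarith

/-- the trivial bound -/
lemma cnt_triv {ξ c ε : ℝ} {s M d g R : ℕ} (hg : 1 ≤ g) (hR : g ≤ R) :
    (SS ξ c ε s M d g R : ℝ) ≤ 2 * M * R / g := by
  have hg0 : (0 : ℝ) < g := by exact_mod_cast hg
  have h1 : SS ξ c ε s M d g R ≤ M * ((Icc 1 (2 * R)).filter (fun q => R ≤ g * q ∧ g * q < 2 * R)).card := by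
    unfold SS
    calc _ ≤ ((Icc 1 M) ×ˢ ((Icc 1 (2 * R)).filter (fun q => R ≤ g * q ∧ g * q < 2 * R))).card := by
          refine Finset.card_le_card fun x hx => ?_
          rw [mem_filter, mem_product] at hx
          rw [mem_product, mem_filter]
          exact ⟨hx.1.1, hx.1.2, hx.2.1, hx.2.2.1⟩
      _ = _ := by rw [card_product, Nat.card_Icc]; simp
  have h2 : ((Icc 1 (2 * R)).filter (fun q => R ≤ g * q ∧ g * q < 2 * R)).card ≤ 2 * R / g := by
    -- contained in `Ico ⌈R/g⌉ ⌈2R/g⌉`, but also in `Icc 1 (2R/g)`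
    calc _ ≤ (Icc 1 (2 * R / g)).card := by
          refine Finset.card_le_card fun q hq => ?_
          rw [mem_filter, mem_Icc] at hq
          rw [mem_Icc]
          refine ⟨hq.1.1, ?_⟩
          rw [Nat.le_div_iff_mul_le hg]
          rw [mul_comm]; exact hq.2.2.le
      _ = 2 * R / g := by rw [Nat.card_Icc, Nat.add_sub_cancel]
  have h3 : ((2 * R / g : ℕ) : ℝ) ≤ 2 * R / g := by
    rw [le_div_iff₀ hg0]
    have := Nat.div_mul_le_self (2 * R) g
    exact_mod_cast this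
  have h4 : (SS ξ c ε s M d g R : ℝ) ≤ M * ((2 * R / g : ℕ) : ℝ) := by
    have := h1.trans (Nat.mul_le_mul_left M h2)
    exact_mod_cast this
  calc (SS ξ c ε s M d g R : ℝ) ≤ M * ((2 * R / g : ℕ) : ℝ) := h4
    _ ≤ M * (2 * R / g) := mul_le_mul_of_nonneg_left h3 (by positivity)
    _ = 2 * M * R / g := by ring

/-- the facts for `K → ∞` -/
lemma ev {ε κ A c C α κ₁ δ : ℝ} (hA : 0 < A) (hα0 : 0 ≤ α) (hc : 0 < c)
    (hC : 0 < C) (hκ : 0 < κ) (hκ₁ : 0 < κ₁) (hκ₁' : κ₁ ≤ 1 / 40)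
    (hδ : δ = κ₁ / (A + 2)) (z0 : ℕ) : ∀ᶠ K : ℕ in atTop,
      3 ≤ K ∧ 1 ≤ κ * Real.log K ∧
      A ^ (1 + ε) * Real.log (K : ℝ) ^ (1 + ε) ≤ 2 * c * (K : ℝ) ^ κ₁ ∧
      C * (K : ℝ) ^ (α + 5 * κ₁) + 3 ≤ (K : ℝ) ^ (α + 6 * κ₁) ∧
      ∃ z : ℕ, z0 ≤ z ∧ 1 ≤ z ∧ z ≤ K ∧ (z : ℝ) ^ 4 ≤ (K : ℝ) ^ (4 * κ₁) ∧
        (K : ℝ) ^ (A + 2) ≤ (z : ℝ) ^ (⌈2 * (A + 2) / κ₁⌉₊) := by
  filter_upwards [dy_pow (max z0 1) κ₁ hκ₁, dy_pow 2 (κ₁ / 2) (by positivity),
    dy_log (A ^ (1 + ε) / (2 * c)) (1 + ε) κ₁ hκ₁, dy_pow 6 κ₁ hκ₁, dy_pow (2 * C) κ₁ hκ₁,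
    eventually_ge_atTop 3, (tendsto_natCast_atTop_atTop.eventually
      (Real.tendsto_log_atTop.eventually_ge_atTop (1 / κ)))] with K h1 h2 h3 h4 h5 h6 h7
  have hK3 : (3 : ℝ) ≤ K := by exact_mod_cast h6
  have hK0 : (0 : ℝ) < K := by linarith
  have hK1 : (1 : ℝ) ≤ K := by linarith
  have hκK : 1 ≤ κ * Real.log K := by
    have := mul_le_mul_of_nonneg_left h7 hκ.le
    rwa [mul_one_div, div_self hκ.ne'] at this
  refine ⟨h6, hκK, ?_, ?_, ⌊(K : ℝ) ^ κ₁⌋₊, ?_, ?_, ?_, ?_, ?_⟩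
  · have e1 : A ^ (1 + ε) / (2 * c) * Real.log K ^ (1 + ε) =
      (A ^ (1 + ε) * Real.log K ^ (1 + ε)) / (2 * c) := by ring
    rw [e1, div_le_iff₀ (by positivity)] at h3
    linarith
  · have e1 : (K : ℝ) ^ (α + 6 * κ₁) = (K : ℝ) ^ (α + 5 * κ₁) * (K : ℝ) ^ κ₁ := by
      rw [← Real.rpow_add hK0]; congr 1; ring
    have e2 : (1 : ℝ) ≤ (K : ℝ) ^ (α + 5 * κ₁) := Real.one_le_rpow hK1 (by positivity)
    rw [e1]
    nlinarith
  · exact Nat.le_floor ((le_max_left _ _).trans h1)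
  · have : ((1 : ℕ) : ℝ) ≤ (K : ℝ) ^ κ₁ := by
      push_cast; exact (le_max_right _ _).trans h1
    exact Nat.le_floor this
  · have : ((⌊(K : ℝ) ^ κ₁⌋₊ : ℕ) : ℝ) ≤ K := by
      refine (Nat.floor_le (by positivity)).trans ?_
      calc (K : ℝ) ^ κ₁ ≤ (K : ℝ) ^ (1 : ℝ) :=
            Real.rpow_le_rpow_of_exponent_le hK1 (by linarith)
        _ = K := Real.rpow_one _
    exact_mod_cast this
  · calc ((⌊(K : ℝ) ^ κ₁⌋₊ : ℕ) : ℝ) ^ 4 ≤ ((K : ℝ) ^ κ₁) ^ 4 :=
          pow_le_pow_left₀ (by positivity) (Nat.floor_le (by positivity)) 4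
      _ = (K : ℝ) ^ (4 * κ₁) := by
          rw [← Real.rpow_natCast, ← Real.rpow_mul hK0.le]; congr 1; push_cast; ring
  · have hz : (K : ℝ) ^ (κ₁ / 2) ≤ ((⌊(K : ℝ) ^ κ₁⌋₊ : ℕ) : ℝ) := by
      have e1 : (K : ℝ) ^ κ₁ < (⌊(K : ℝ) ^ κ₁⌋₊ : ℕ) + 1 := Nat.lt_floor_add_one _
      have e2 : (K : ℝ) ^ κ₁ = (K : ℝ) ^ (κ₁ / 2) * (K : ℝ) ^ (κ₁ / 2) := by
        rw [← Real.rpow_add hK0]; congr 1; ring
      nlinarith
    calc (K : ℝ) ^ (A + 2) ≤ (K : ℝ) ^ ((κ₁ / 2) * (⌈2 * (A + 2) / κ₁⌉₊ : ℕ)) := by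
          refine Real.rpow_le_rpow_of_exponent_le hK1 ?_
          have := Nat.le_ceil (2 * (A + 2) / κ₁)
          calc A + 2 = (κ₁ / 2) * (2 * (A + 2) / κ₁) := by field_simp
            _ ≤ _ := mul_le_mul_of_nonneg_left this (by positivity)
      _ = ((K : ℝ) ^ (κ₁ / 2)) ^ (⌈2 * (A + 2) / κ₁⌉₊) := by
          rw [← Real.rpow_natCast, ← Real.rpow_mul hK0.le]
      _ ≤ _ := pow_le_pow_left₀ (by positivity) hz _

theorem mdBLA : GFej → GNT → GDDM → BlaStmt := by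
  intro hF hNT hD ξ hξ ε η κ A c α hε hη hκ hκA hc hα0 hα1
  have hA : 0 < A := lt_of_lt_of_le hκ hκA
  set κ₁ : ℝ := min κ (1 - α) / 40 with hκ₁
  have hmin : 0 < min κ (1 - α) := lt_min hκ (by linarith)
  have hκ₁0 : 0 < κ₁ := by positivity
  have hκ₁a : 40 * κ₁ ≤ 1 - α := by
    have := min_le_right κ (1 - α)
    rw [hκ₁]; linarith
  have hκ₁b : κ₁ ≤ κ := by
    have := min_le_left κ (1 - α)
    rw [hκ₁]; linarith
  have hκ₁c : κ₁ ≤ 1 / 40 := by linarith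
  have hδ0 : 0 < κ₁ / (A + 2) := by positivity
  obtain ⟨C, hC, hFG⟩ := hF ξ hξ (κ₁ / (A + 2)) hδ0
  obtain ⟨C1, z0, hC1, hN1⟩ := hNT (⌈2 * (A + 2) / κ₁⌉₊) η hη
  obtain ⟨N0, hN0⟩ := eventually_atTop.1
    (ev (ε := ε) (κ := κ) (A := A) (c := c) (C := C) (α := α) (κ₁ := κ₁) hA hα0 hc hC hκ hκ₁0
      hκ₁c rfl z0)
  refine ⟨(24 * c * C1 + 8 * c) / κ ^ (1 + ε), N0, by positivity, ?_⟩
  intro M d s g R hK hs1 hs2 hgd hg1 hR1 hR2
  obtain ⟨hK3', hκK, hLK, hCK, z, hz0, hz1, hzK, hz4, hzX⟩ := hN0 (M * d) hK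
  set K : ℕ := M * d with hKdef
  have hK3 : (3 : ℝ) ≤ (K : ℝ) := by exact_mod_cast hK3'
  have hK0 : (0 : ℝ) < (K : ℝ) := by linarith
  have hK1 : (1 : ℝ) ≤ (K : ℝ) := by linarith
  have hlK : 0 < Real.log K := Real.log_pos (by linarith)
  have hlK1 : 1 ≤ Real.log K := by
    have := Real.exp_one_lt_d9
    rw [Real.le_log_iff_exp_le hK0]; linarith
  have hMpos : 0 < M := by
    rcases Nat.eq_zero_or_pos M with h | h
    · rw [h, zero_mul] at hKdef; omega
    · exact h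
  have hdpos : 0 < d := by
    rcases Nat.eq_zero_or_pos d with h | h
    · rw [h, mul_zero] at hKdef; omega
    · exact h
  obtain ⟨D, hDd⟩ := hgd
  have hgpos : 0 < g := by
    rcases Nat.eq_zero_or_pos g with h | h
    · rw [h, zero_mul] at hDd; omega
    · exact h
  have hDpos : 0 < D := by
    rcases Nat.eq_zero_or_pos D with h | h
    · rw [h, mul_zero] at hDd; omega
    · exact h
  have hdg : d / g = D := by rw [hDd]; exact Nat.mul_div_cancel_left D hgpos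
  have hM1 : (1 : ℝ) ≤ (M : ℝ) := by exact_mod_cast hMpos
  have hD1 : (1 : ℝ) ≤ (D : ℝ) := by exact_mod_cast hDpos
  have hg0 : (1 : ℝ) ≤ (g : ℝ) := by exact_mod_cast hgpos
  have hKr : (K : ℝ) = M * (g * D) := by rw [hKdef, hDd]; push_cast; ring
  -- the denominators
  have hRκ : (1 : ℝ) < (K : ℝ) ^ κ := Real.one_lt_rpow (by linarith) hκ
  have hR3 : (1 : ℝ) < R := lt_of_lt_of_le hRκ hR1
  have hR0 : (0 : ℝ) < R := by linarith
  have hgR : (g : ℝ) ≤ R := hg1.trans ((Real.rpow_le_rpow_of_exponent_le hK1 hκ₁b).trans hR1)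
  have hgR' : g ≤ R := by exact_mod_cast hgR
  have hlR : 0 < Real.log R := Real.log_pos hR3
  have hlR1 : κ * Real.log K ≤ Real.log R := by
    have := Real.log_le_log (by positivity) hR1
    rwa [Real.log_rpow hK0] at this
  have hlR2 : Real.log R ≤ A * Real.log K := by
    have := Real.log_le_log hR0 hR2
    rwa [Real.log_rpow hK0] at this
  set L : ℝ := LL ε R with hL
  have hLdef : L = Real.log R ^ (1 + ε) := rfl
  have hL1 : (κ * Real.log K) ^ (1 + ε) ≤ L :=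
    Real.rpow_le_rpow (by positivity) hlR1 (by linarith)
  have hL0 : 1 ≤ L := le_trans (Real.one_le_rpow hκK (by linarith)) hL1
  have hLpos : 0 < L := by linarith
  have hL2 : L ≤ 2 * c * (K : ℝ) ^ κ₁ := by
    refine le_trans ?_ hLK
    rw [← Real.mul_rpow hA.le hlK.le, hLdef]
    exact Real.rpow_le_rpow hlR.le hlR2 (by linarith)
  set e : ℝ := eb c ε d g R with he
  have hedef : e = c * D / (R * L) := by rw [he, eb, hdg]
  have he0 : 0 < e := by rw [hedef]; positivity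
  have heRL : e * (R * L) = c * D := by rw [hedef]; field_simp
  -- the final step
  have hfin : ∀ B : ℝ, 0 ≤ B → B ≤ 24 * c * C1 + 8 * c →
      (SS ξ c ε s M d g R : ℝ) ≤ B * K * Real.log K ^ η / ((g : ℝ) ^ 2 * L) →
      (SS ξ c ε s M d g R : ℝ)
      ≤ (24 * c * C1 + 8 * c) / κ ^ (1 + ε) * (K : ℝ) * Real.log (K : ℝ) ^ (η - 1 - ε) /
        (g : ℝ) ^ 2 := by
    intro B hB0 hB1 h
    refine h.trans ?_
    have e1 : B * K * Real.log K ^ η / ((g : ℝ) ^ 2 * L) ≤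
        (24 * c * C1 + 8 * c) * K * Real.log K ^ η /
          ((g : ℝ) ^ 2 * (κ * Real.log K) ^ (1 + ε)) := by
      refine div_le_div₀ (by positivity) ?_ (by positivity) ?_
      · refine mul_le_mul_of_nonneg_right ?_ (by positivity)
        exact mul_le_mul_of_nonneg_right hB1 hK0.le
      · exact mul_le_mul_of_nonneg_left hL1 (by positivity)
    refine e1.trans (le_of_eq ?_)
    rw [Real.mul_rpow hκ.le hlK.le]
    have e5 : Real.log K ^ η = Real.log K ^ (η - 1 - ε) * Real.log K ^ (1 + ε) := by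
      rw [← Real.rpow_add hlK]
      congr 1
      ring
    rw [e5]
    have e6 : 0 < Real.log (K : ℝ) ^ (1 + ε) := Real.rpow_pos_of_pos hlK _
    have e7 : 0 < κ ^ (1 + ε) := Real.rpow_pos_of_pos hκ _
    field_simp
  rcases le_or_gt (1 / 4) e with he4 | he4
  · -- trivial case
    refine hfin (8 * c) (by positivity) (by nlinarith [mul_pos hc hC1]) ?_
    refine (cnt_triv hgpos hgR').trans ?_
    have h1 : (1 : ℝ) ≤ Real.log K ^ η := Real.one_le_rpow hlK1 hη.le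
    have h2 : 2 * (M : ℝ) * R / g ≤ 8 * c * K / ((g : ℝ) ^ 2 * L) := by
      rw [div_le_div_iff₀ (by positivity) (by positivity), hKr]
      have h3 : R * L ≤ 4 * (c * D) := by rw [← heRL]; nlinarith [mul_pos hR0 hLpos]
      calc 2 * (M : ℝ) * R * ((g : ℝ) ^ 2 * L) = 2 * M * (g : ℝ) ^ 2 * (R * L) := by ring
        _ ≤ 2 * M * (g : ℝ) ^ 2 * (4 * (c * D)) := mul_le_mul_of_nonneg_left h3 (by positivity)
        _ = 8 * c * (M * (g * D)) * g := by ring
    refine h2.trans ?_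
    refine div_le_div_of_nonneg_right ?_ (by positivity)
    exact le_mul_of_one_le_right (by positivity) h1
  · -- main case
    refine hfin (24 * c * C1) (by positivity) (by linarith) ?_
    have hx1 : 2 ≤ 1 / (2 * e) := by
      rw [le_div_iff₀ (by positivity)]; linarith
    set H : ℕ := ⌊1 / (2 * e)⌋₊ with hH
    have hH1 : 1 ≤ H := by
      rw [hH, Nat.one_le_floor_iff]; linarith
    have hH0 : (0 : ℝ) < H := by exact_mod_cast hH1
    have hHle : (H : ℝ) ≤ 1 / (2 * e) := Nat.floor_le (by positivity)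
    have hHlt : 1 / (2 * e) < H + 1 := Nat.lt_floor_add_one _
    have hHge : 1 / (4 * e) ≤ H := by
      have e1 : 1 / (4 * e) = 1 / (2 * e) / 2 := by field_simp; norm_num
      have e2 : (1 : ℝ) ≤ H := by exact_mod_cast hH1
      rw [e1]; linarith
    have hH4 : 1 / (H : ℝ) ≤ 4 * e := by
      rw [div_le_iff₀ hH0]
      rw [div_le_iff₀ (by positivity)] at hHge
      linarith
    have hH2 : 2 * e ≤ 1 / (H : ℝ) := by
      rw [le_div_iff₀ hH0]
      rw [le_div_iff₀ (by positivity)] at hHle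
      linarith
    have heH : e ≤ 1 / (2 * (H : ℝ)) := by
      rw [le_div_iff₀ (by positivity)]
      rw [le_div_iff₀ (by positivity)] at hHle
      linarith
    have hHK : (H : ℝ) ≤ (K : ℝ) ^ (A + 1) := by
      refine hHle.trans ?_
      rw [div_le_iff₀ (by positivity), hedef]
      have h1 : (K : ℝ) ^ (A + κ₁) ≤ (K : ℝ) ^ (A + 1) :=
        Real.rpow_le_rpow_of_exponent_le hK1 (by linarith)
      have h2 : (K : ℝ) ^ (A + κ₁) * (2 * (c * D / (R * L))) ≤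
          (K : ℝ) ^ (A + 1) * (2 * (c * D / (R * L))) :=
        mul_le_mul_of_nonneg_right h1 (by positivity)
      refine le_trans ?_ h2
      have h3 : (K : ℝ) ^ (A + κ₁) * (2 * (c * D / (R * L))) =
          (K : ℝ) ^ (A + κ₁) * (2 * c * D) / (R * L) := by ring
      rw [h3, le_div_iff₀ (by positivity), one_mul, Real.rpow_add hK0]
      calc R * L ≤ (K : ℝ) ^ A * (2 * c * (K : ℝ) ^ κ₁) :=
            mul_le_mul hR2 hL2 hLpos.le (by positivity)
        _ = (K : ℝ) ^ A * (K : ℝ) ^ κ₁ * (2 * c * 1) := by ring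
        _ ≤ (K : ℝ) ^ A * (K : ℝ) ^ κ₁ * (2 * c * D) := by
            refine mul_le_mul_of_nonneg_left ?_ (by positivity)
            exact mul_le_mul_of_nonneg_left hD1 (by positivity)
    obtain ⟨G, c0, hG0, hG3, hG1, hc01, hc02, hGM⟩ := hFG H hH1
    set X : ℕ := 2 * M * R / g with hX
    have hc00 : 0 ≤ c0 := le_trans (by positivity) hc01
    have hXle : (X : ℝ) ≤ 2 * M * R / g := by
      rw [le_div_iff₀ (by linarith), hX]
      have := Nat.div_mul_le_self (2 * M * R) g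
      exact_mod_cast this
    have hXge : M * R / g ≤ (X : ℝ) := by
      have h1 : (2 * M * R : ℝ) / g < X + 1 := by
        rw [div_lt_iff₀ (by linarith), hX]
        have := Nat.lt_div_mul_add (a := 2 * M * R) (b := g) hgpos
        have h2 : 2 * M * R < (2 * M * R / g + 1) * g := by
          rw [Nat.add_mul, one_mul]; exact this
        exact_mod_cast h2
      have h2 : (1 : ℝ) ≤ M * R / g := by
        rw [le_div_iff₀ (by linarith), one_mul]
        nlinarith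
      have h3 : (2 * M * R : ℝ) / g = M * R / g + M * R / g := by ring
      linarith
    have hδ1 : κ₁ / (A + 2) ≤ 1 := by
      rw [div_le_one (by positivity)]; linarith
    have hlev : Lev X (fun n => G (n * (s * ξ))) (c0 * (X : ℝ)) ((K : ℝ) ^ (α + 6 * κ₁)) z := by
      refine dy_lev (C := C * (s : ℝ) ^ (1 + κ₁ / (A + 2))) (δ := κ₁ / (A + 2)) hH1 hG0 hc01 hc02
        ?_ (by positivity) ?_
      · intro m N hm
        have h1 := hGM (m * s) N (Nat.mul_pos hm hs1)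
        have h2 : ∀ n : ℕ, (n : ℝ) * (((m * s : ℕ) : ℝ) * ξ) = (n : ℝ) * (m * (s * ξ)) := by
          intro n; push_cast; ring
        simp only [h2] at h1
        refine h1.trans (le_of_eq ?_)
        push_cast
        rw [Real.mul_rpow (by positivity) (by positivity)]
        ring
      · intro m hm1 hm2
        have hm0 : (1 : ℝ) ≤ m := by exact_mod_cast hm1
        have hs0 : (1 : ℝ) ≤ s := by exact_mod_cast hs1
        have e1 : (m : ℝ) ^ (1 + κ₁ / (A + 2)) ≤ (K : ℝ) ^ (4 * κ₁) := by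
          calc (m : ℝ) ^ (1 + κ₁ / (A + 2)) ≤ (m : ℝ) ^ (2 : ℝ) :=
                Real.rpow_le_rpow_of_exponent_le hm0 (by linarith)
            _ = (m : ℝ) ^ 2 := by rw [Real.rpow_ofNat]
            _ ≤ ((z : ℝ) ^ 2) ^ 2 := by
                refine pow_le_pow_left₀ (by linarith) ?_ 2
                exact_mod_cast hm2
            _ = (z : ℝ) ^ 4 := by ring
            _ ≤ _ := hz4
        have e2 : (H : ℝ) ^ (κ₁ / (A + 2)) ≤ (K : ℝ) ^ ((A + 1) * (κ₁ / (A + 2))) := by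
          calc (H : ℝ) ^ (κ₁ / (A + 2)) ≤ ((K : ℝ) ^ (A + 1)) ^ (κ₁ / (A + 2)) :=
                Real.rpow_le_rpow hH0.le hHK (by positivity)
            _ = (K : ℝ) ^ ((A + 1) * (κ₁ / (A + 2))) := by rw [← Real.rpow_mul hK0.le]
        have e3 : (s : ℝ) ^ (1 + κ₁ / (A + 2)) ≤ (K : ℝ) ^ (α * (1 + κ₁ / (A + 2))) := by
          calc (s : ℝ) ^ (1 + κ₁ / (A + 2)) ≤ ((K : ℝ) ^ α) ^ (1 + κ₁ / (A + 2)) :=
                Real.rpow_le_rpow (by linarith) hs2 (by positivity)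
            _ = _ := by rw [← Real.rpow_mul hK0.le]
        have e4 : C * (s : ℝ) ^ (1 + κ₁ / (A + 2)) * (H : ℝ) ^ (κ₁ / (A + 2)) *
            (m : ℝ) ^ (1 + κ₁ / (A + 2)) ≤
            C * (K : ℝ) ^ (α * (1 + κ₁ / (A + 2))) * (K : ℝ) ^ ((A + 1) * (κ₁ / (A + 2))) *
              (K : ℝ) ^ (4 * κ₁) := by
          refine mul_le_mul ?_ e1 (by positivity) (by positivity)
          refine mul_le_mul ?_ e2 (by positivity) (by positivity)
          exact mul_le_mul_of_nonneg_left e3 hC.le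
        have e5 : C * (K : ℝ) ^ (α * (1 + κ₁ / (A + 2))) *
            (K : ℝ) ^ ((A + 1) * (κ₁ / (A + 2))) * (K : ℝ) ^ (4 * κ₁) ≤
            C * (K : ℝ) ^ (α + 5 * κ₁) := by
          rw [mul_assoc C, mul_assoc C, ← Real.rpow_add hK0, ← Real.rpow_add hK0]
          refine mul_le_mul_of_nonneg_left ?_ hC.le
          refine Real.rpow_le_rpow_of_exponent_le hK1 ?_
          have e6 : κ₁ = (A + 2) * (κ₁ / (A + 2)) := by field_simp
          have e7 : α * (κ₁ / (A + 2)) ≤ 1 * (κ₁ / (A + 2)) :=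
            mul_le_mul_of_nonneg_right hα1.le hδ0.le
          nlinarith
        linarith
    have hYlow : 2 * c * K / ((g : ℝ) ^ 2 * L) ≤ c0 * (X : ℝ) := by
      have e1 : 2 * e * (M * R / g) ≤ c0 * (X : ℝ) :=
        mul_le_mul (hH2.trans hc01) hXge (by positivity) hc00
      refine le_trans (le_of_eq ?_) e1
      rw [hedef, hKr]
      field_simp
    have hYlow2 : (K : ℝ) ^ (1 - 3 * κ₁) ≤ c0 * (X : ℝ) := by
      refine le_trans ?_ hYlow
      rw [le_div_iff₀ (by positivity)]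
      have e1 : (g : ℝ) ^ 2 ≤ (K : ℝ) ^ (2 * κ₁) := by
        calc (g : ℝ) ^ 2 ≤ ((K : ℝ) ^ κ₁) ^ 2 := pow_le_pow_left₀ (by positivity) hg1 2
          _ = (K : ℝ) ^ (2 * κ₁) := by
            rw [← Real.rpow_natCast, ← Real.rpow_mul hK0.le]; congr 1; push_cast; ring
      calc (K : ℝ) ^ (1 - 3 * κ₁) * ((g : ℝ) ^ 2 * L) ≤
            (K : ℝ) ^ (1 - 3 * κ₁) * ((K : ℝ) ^ (2 * κ₁) * (2 * c * (K : ℝ) ^ κ₁)) := by
            refine mul_le_mul_of_nonneg_left ?_ (by positivity)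
            exact mul_le_mul e1 hL2 hLpos.le (by positivity)
        _ = 2 * c * ((K : ℝ) ^ (1 - 3 * κ₁) * (K : ℝ) ^ (2 * κ₁) * (K : ℝ) ^ κ₁) := by ring
        _ = 2 * c * K := by
            rw [← Real.rpow_add hK0, ← Real.rpow_add hK0]
            have : 1 - 3 * κ₁ + 2 * κ₁ + κ₁ = 1 := by ring
            rw [this, Real.rpow_one]
    have hXz : X ≤ z ^ (⌈2 * (A + 2) / κ₁⌉₊) := by
      have h1 : (X : ℝ) ≤ (K : ℝ) ^ (A + 2) := by
        calc (X : ℝ) ≤ 2 * M * R / g := hXle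
          _ ≤ 2 * M * R := div_le_self (by positivity) hg0
          _ ≤ K * K * (K : ℝ) ^ A := by
              refine mul_le_mul ?_ hR2 hR0.le (by positivity)
              refine mul_le_mul (by linarith) ?_ (by positivity) (by positivity)
              rw [hKr]
              have : (1 : ℝ) ≤ g * D := by nlinarith
              nlinarith
          _ = (K : ℝ) ^ (A + 2) := by
              rw [Real.rpow_add hK0, Real.rpow_ofNat]; ring
      have := h1.trans hzX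
      exact_mod_cast this
    have h1 := hN1 z X (fun n => G (n * (s * ξ))) (c0 * (X : ℝ))
      ((K : ℝ) ^ (α + 6 * κ₁)) hz0 hXz hlev (fun n => hG3 _) ?_ ?_
    · have hcount := cnt_SS hD (ξ := ξ) (c := c) (ε := ε) (s := s) (M := M) (d := d) (g := g)
        (R := R) (X := X) hG0 hgpos le_rfl (fun t ht => hG1 t (ht.trans heH))
      refine hcount.trans (h1.trans ?_)
      have e1 : Real.log z ^ η ≤ Real.log K ^ η := by
        have hzr : (1 : ℝ) ≤ z := by exact_mod_cast hz1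
        refine Real.rpow_le_rpow (Real.log_nonneg hzr) ?_ hη.le
        exact Real.log_le_log (by linarith) (by exact_mod_cast hzK)
      have e2 : c0 * (X : ℝ) ≤ 24 * c * K / ((g : ℝ) ^ 2 * L) := by
        have h2 : c0 ≤ 3 * (4 * e) := by
          calc c0 ≤ 3 / H := hc02
            _ = 3 * (1 / H) := by ring
            _ ≤ _ := mul_le_mul_of_nonneg_left hH4 (by norm_num)
        calc c0 * (X : ℝ) ≤ 3 * (4 * e) * (2 * M * R / g) :=
              mul_le_mul h2 hXle (by positivity) (by positivity)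
          _ = 24 * c * K / ((g : ℝ) ^ 2 * L) := by
              rw [hedef, hKr]
              field_simp
              ring
      have e4 : C1 * (c0 * (X : ℝ)) * Real.log z ^ η ≤
          C1 * (24 * c * K / ((g : ℝ) ^ 2 * L)) * Real.log K ^ η := by
        refine mul_le_mul (mul_le_mul_of_nonneg_left e2 hC1.le) e1 ?_ (by positivity)
        exact Real.rpow_nonneg (Real.log_natCast_nonneg z) _
      refine e4.trans (le_of_eq ?_)
      ring
    · refine hz4.trans (le_trans ?_ hYlow2)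
      exact Real.rpow_le_rpow_of_exponent_le hK1 (by linarith)
    · calc (z : ℝ) ^ 4 * (K : ℝ) ^ (α + 6 * κ₁) ≤
            (K : ℝ) ^ (4 * κ₁) * (K : ℝ) ^ (α + 6 * κ₁) :=
            mul_le_mul_of_nonneg_right hz4 (by positivity)
        _ = (K : ℝ) ^ (4 * κ₁ + (α + 6 * κ₁)) := by
            rw [← Real.rpow_add hK0]
        _ ≤ (K : ℝ) ^ (1 - 3 * κ₁) := Real.rpow_le_rpow_of_exponent_le hK1 (by linarith)
        _ ≤ _ := hYlow2

end Pool.Agent.Helper54.MD
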